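import Pool.Agent.Lib_helper59.HT.Defs2
import Pool.Agent.Lib_helper59.HT.A_Z_pos
import Pool.Agent.Lib_helper59.HT.A_exch_main
import Pool.Agent.Lib_helper59.HT.A_val_split
import Pool.Agent.Lib_helper59.HT.A_no_small_cycles
import Pool.Agent.Lib_helper59.HT.A_few_touch
import Pool.Agent.Lib_helper59.HT.A_dense_dichotomy
import Pool.Agent.Lib_helper3.HTI.K.A_few_small
import Pool.Agent.Lib_helper59.HT.A_bad_pairs

set_option autoImplicit false

open Finset Matrix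

namespace Pool.Agent.HT

lemma wt_nonneg {n : ℕ} (τ : E' n → Tri n) : 0 ≤ wt τ := sq_nonneg _

lemma mass_mono {n : ℕ} {A B : (E' n → Tri n) → Prop} (h : ∀ τ, wt τ ≠ 0 → A τ → B τ) :
    mass A ≤ mass B := by
  classical
  unfold mass
  apply Finset.sum_le_sum
  intro τ _
  by_cases hA : A τ
  · by_cases hw : wt τ = 0
    · simp [hw]
    · simp [hA, h τ hw hA]
  · simp only [hA, if_false]
    split_ifs
    · exact wt_nonneg τ
    · exact le_rfl

lemma mass_or {n : ℕ} (A B : (E' n → Tri n) → Prop) :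
    mass (fun τ => A τ ∨ B τ) ≤ mass A + mass B := by
  classical
  unfold mass
  rw [← Finset.sum_add_distrib]
  apply Finset.sum_le_sum
  intro τ _
  have := wt_nonneg τ
  by_cases hA : A τ <;> by_cases hB : B τ <;> simp [hA, hB, this]

lemma mass_le_Z {n : ℕ} (A : (E' n → Tri n) → Prop) : mass A ≤ Z n := by
  classical
  unfold mass Z
  apply Finset.sum_le_sum
  intro τ _
  split_ifs
  · exact le_rfl
  · exact wt_nonneg τ

lemma mass_nonneg {n : ℕ} (A : (E' n → Tri n) → Prop) : 0 ≤ mass A := by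
  classical
  unfold mass
  apply Finset.sum_nonneg
  intro τ _
  split_ifs
  · exact wt_nonneg τ
  · exact le_rfl

/-- one modulus -/
theorem one_modulus (p : ℕ) (hp : p.Prime) (δ : ℝ) (hδ : 0 < δ)
    (hG1 : ∀ ε : ℝ, 0 < ε → ∃ N : ℕ, ∀ n : ℕ, N ≤ n →
      mass (fun τ : E' n → Tri n => ∃ p : ℕ, p.Prime ∧ ∃ c : E' n → ℤ, (∃ i, ¬ (p : ℤ) ∣ c i) ∧
      (∀ e, (p : ℤ) ∣ ∑ i, c i * M τ i e) ∧
      (cnt (fun i => ¬ (p : ℤ) ∣ c i) : ℝ) < δ * Nr n) ≤ ε * Z n)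
    (ε : ℝ) (hε : 0 < ε) (κ : ℕ)
    (hκ : ∀ q : ℕ, 2 ≤ q → ∃ ε0 : ℝ, 0 < ε0 ∧
      ∃ N : ℕ, ∀ n : ℕ, N ≤ n →
      mass (fun τ : E' n → Tri n =>
        κ < Nat.card {f : E' n → ZMod q // f ∈ Kq (ZMod q) τ ∧ Small q ε0 f}) ≤ ε * Z n)
    (s : ℕ) (hs : (κ : ℝ) / (p ^ s : ℕ) ≤ δ * ε) (k : ℕ) (hk : 1 ≤ k) :
    ∃ N : ℕ, ∀ n : ℕ, N ≤ n →
      mass (fun τ : E' n → Tri n => AA p (p ^ k) (p ^ s) τ) ≤ 16 * ε * Z n := by
  have hp1 : 1 < p := hp.one_lt
  have hq2 : 2 ≤ p ^ k := by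
    calc 2 ≤ p := hp.two_le
      _ = p ^ 1 := (pow_one p).symm
      _ ≤ p ^ k := Nat.pow_le_pow_right hp.pos hk
  haveI : NeZero (p ^ k) := ⟨by omega⟩
  obtain ⟨ε0, hε0, N1, hN1⟩ := hκ (p ^ k) hq2
  obtain ⟨ε1, hε1, hT⟩ := few_touch (δ / 2) (by positivity)
  obtain ⟨N2, hN2⟩ := hT ε hε
  obtain ⟨N3, hN3⟩ := hG1 ε hε
  set m : ℕ := p ^ s with hm
  have hmpos : 0 < m := Nat.pow_pos hp.pos
  have hmR : (0 : ℝ) < m := by exact_mod_cast hmpos
  -- ε2 = δ ε ; ε1' with m ε1' / ε2^2 = ε1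
  set ε2 : ℝ := δ * ε with hε2
  have hε2pos : 0 < ε2 := by positivity
  set ε1' : ℝ := ε1 * ε2 ^ 2 / m with hε1'
  have hε1'pos : 0 < ε1' := by positivity
  obtain ⟨N4, hN4⟩ := dense_dichotomy (p ^ k) hq2 ε0 ε1' ε hε0 hε1'pos hε
  refine ⟨max 3 (max N1 (max N2 (max N3 N4))), fun n hn => ?_⟩
  have hn3 : 3 ≤ n := le_trans (le_max_left _ _) hn
  have hn' := le_trans (le_max_right _ _) hn
  have hnN1 : N1 ≤ n := le_trans (le_max_left _ _) hn'
  have hn'' := le_trans (le_max_right _ _) hn'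
  have hnN2 : N2 ≤ n := le_trans (le_max_left _ _) hn''
  have hn''' := le_trans (le_max_right _ _) hn''
  have hnN3 : N3 ≤ n := le_trans (le_max_left _ _) hn'''
  have hnN4 : N4 ≤ n := le_trans (le_max_right _ _) hn'''
  have hZ : 0 < Z n := Z_pos n (by omega)
  -- the bad event
  let B1 : (E' n → Tri n) → Prop := fun τ => ∃ p : ℕ, p.Prime ∧ ∃ c : E' n → ℤ,
      (∃ i, ¬ (p : ℤ) ∣ c i) ∧ (∀ e, (p : ℤ) ∣ ∑ i, c i * M τ i e) ∧
      (cnt (fun i => ¬ (p : ℤ) ∣ c i) : ℝ) < δ * Nr n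
  let B2 : (E' n → Tri n) → Prop := fun τ => ∃ B : Finset (Fin n × Fin n),
      (B.card : ℝ) ≤ ε1 * (n : ℝ) ^ 2 ∧ δ / 2 * Nr n < cnt (fun i => touch (τ i) B)
  let B3 : (E' n → Tri n) → Prop := fun τ =>
      ∃ f ∈ Kq (ZMod (p ^ k)) τ, ¬ Small (p ^ k) ε0 f ∧ ¬ QR (p ^ k) ε1' f
  let B4 : (E' n → Tri n) → Prop := fun τ =>
      κ < Nat.card {f : E' n → ZMod (p ^ k) // f ∈ Kq (ZMod (p ^ k)) τ ∧ Small (p ^ k) ε0 f}
  let Bad : (E' n → Tri n) → Prop := fun τ => (B1 τ ∨ B2 τ) ∨ (B3 τ ∨ B4 τ)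
  have hBad : mass Bad ≤ 4 * ε * Z n := by
    have e1 : mass B1 ≤ ε * Z n := hN3 n hnN3
    have e2 : mass B2 ≤ ε * Z n := hN2 n hnN2
    have e3 : mass B3 ≤ ε * Z n := hN4 n hnN4
    have e4 : mass B4 ≤ ε * Z n := hN1 n hnN1
    have h12 := mass_or B1 B2
    have h34 := mass_or B3 B4
    have h := mass_or (fun τ => B1 τ ∨ B2 τ) (fun τ => B3 τ ∨ B4 τ)
    calc mass Bad ≤ mass (fun τ => B1 τ ∨ B2 τ) + mass (fun τ => B3 τ ∨ B4 τ) := h
      _ ≤ 4 * ε * Z n := by linarith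
  have hex := exch_main n hn3 p k s hp hk δ (δ / 2) (δ * ε + ε2) (by positivity) Bad
    (by
      intro τ hτ c hc hdiv
      by_contra hcon
      push Not at hcon
      exact hτ (Or.inl (Or.inl ⟨p, hp, c, hc, hdiv, hcon⟩)))
    (by
      intro τ hτ V hV hcard
      by_contra hcon
      push Not at hcon
      apply hτ
      refine Or.inl (Or.inr ⟨BB V (δ * ε + ε2), ?_, hcon⟩)
      -- small elements of V
      have hsm : Nat.card {f : E' n → ZMod (p ^ k) // f ∈ V ∧ ¬ QR (p ^ k) ε1' f} ≤ κ := by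
        by_contra hgt
        push Not at hgt
        apply hτ
        refine Or.inr (Or.inr ?_)
        refine lt_of_lt_of_le hgt ?_
        apply Nat.card_le_card_of_injective
          (fun f => ⟨f.1, hV f.2.1, by
            by_contra hS
            exact hτ (Or.inr (Or.inl ⟨f.1, hV f.2.1, hS, f.2.2⟩))⟩)
        intro f g hfg
        simpa [Subtype.ext_iff] using hfg
      have hb := bad_pairs n (p ^ k) m κ (by omega) ε1' ε2 hε1'pos.le hε2pos V hcard hsm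
      have hmono : BB V (δ * ε + ε2) ⊆ BB V ((κ : ℝ) / m + ε2) := by
        intro ab hab
        unfold BB at hab ⊢
        simp only [Finset.mem_filter, Finset.mem_univ, true_and] at hab ⊢
        refine lt_of_le_of_lt ?_ hab
        apply mul_le_mul_of_nonneg_right _ (Nat.cast_nonneg n)
        linarith
      have hle : ((BB V (δ * ε + ε2)).card : ℝ) ≤ ((BB V ((κ : ℝ) / m + ε2)).card : ℝ) := by
        exact_mod_cast Finset.card_le_card hmono
      refine hle.trans (hb.trans (le_of_eq ?_))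
      rw [hε1']
      field_simp)
  have hsplit : mass (fun τ : E' n → Tri n => AA p (p ^ k) (p ^ s) τ) ≤
      mass (fun τ : E' n → Tri n => AA p (p ^ k) (p ^ s) τ ∧ ¬ Bad τ) + mass Bad := by
    refine (mass_mono ?_).trans (mass_or _ _)
    intro τ _ hA
    by_cases hB : Bad τ
    · exact Or.inr hB
    · exact Or.inl ⟨hA, hB⟩
  have h2 : mass (fun τ : E' n → Tri n => AA p (p ^ k) (p ^ s) τ ∧ ¬ Bad τ) ≤ 12 * ε * Z n := by
    have h3 : (δ / 2) * mass (fun τ : E' n → Tri n => AA p (p ^ k) (p ^ s) τ ∧ ¬ Bad τ) ≤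
        (δ / 2) * (12 * ε * Z n) := by
      have : (δ - δ / 2) = δ / 2 := by ring
      rw [this] at hex
      refine hex.trans (le_of_eq ?_)
      rw [hε2]; ring
    exact le_of_mul_le_mul_left h3 (by positivity)
  linarith

theorem main_tuple (p : ℕ) (hp : p.Prime) (ε : ℝ) (hε : 0 < ε) :
    ∃ K N : ℕ, ∀ n : ℕ, N ≤ n →
      mass (fun τ : E' n → Tri n => K < p ^ padicValInt p (M τ).det) < ε * Z n := by
  obtain ⟨δ, hδ, hG1⟩ := no_small_cycles
  set ε1 : ℝ := ε / 33 with hε1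
  have hε1pos : 0 < ε1 := by positivity
  obtain ⟨κ, hκ⟩ := few_small ε1 hε1pos
  -- choose s
  obtain ⟨s, hs1, hs⟩ : ∃ s : ℕ, 1 ≤ s ∧ (κ : ℝ) / (p ^ s : ℕ) ≤ δ * ε1 := by
    have hp1 : (1 : ℝ) < p := by exact_mod_cast hp.one_lt
    obtain ⟨s, hs⟩ := pow_unbounded_of_one_lt ((κ : ℝ) / (δ * ε1)) hp1
    refine ⟨s + 1, by omega, ?_⟩
    have hpos : (0 : ℝ) < δ * ε1 := by positivity
    rw [div_lt_iff₀ hpos] at hs
    have hps : (0 : ℝ) < (p : ℝ) ^ s := by positivity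
    push_cast
    rw [div_le_iff₀ (by positivity)]
    have : (p : ℝ) ^ s ≤ (p : ℝ) ^ (s + 1) := pow_le_pow_right₀ hp1.le (by omega)
    nlinarith
  obtain ⟨N1, hN1⟩ := one_modulus p hp δ hδ hG1 ε1 hε1pos κ hκ s hs 1 le_rfl
  obtain ⟨N2, hN2⟩ := one_modulus p hp δ hδ hG1 ε1 hε1pos κ hκ s hs s hs1
  refine ⟨p ^ (s * s), max 3 (max N1 N2), fun n hn => ?_⟩
  have hn3 : 3 ≤ n := le_trans (le_max_left _ _) hn
  have hn' := le_trans (le_max_right _ _) hn
  have e1 := hN1 n (le_trans (le_max_left _ _) hn')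
  have e2 := hN2 n (le_trans (le_max_right _ _) hn')
  have hZ : 0 < Z n := Z_pos n (by omega)
  have h : mass (fun τ : E' n → Tri n => p ^ (s * s) < p ^ padicValInt p (M τ).det) ≤
      mass (fun τ : E' n → Tri n => AA p (p ^ 1) (p ^ s) τ) +
      mass (fun τ : E' n → Tri n => AA p (p ^ s) (p ^ s) τ) := by
    refine (mass_mono ?_).trans (mass_or _ _)
    intro τ hw hτ
    have hdet : (M τ).det ≠ 0 := by
      intro h0
      apply hw
      simp [wt, h0]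
    have hv : s * s < padicValInt p (M τ).det :=
      (Nat.pow_lt_pow_iff_right hp.one_lt).mp hτ
    exact val_split n p s hp hs1 τ hdet hv.le
  calc mass (fun τ : E' n → Tri n => p ^ (s * s) < p ^ padicValInt p (M τ).det)
      ≤ 16 * ε1 * Z n + 16 * ε1 * Z n := h.trans (add_le_add e1 e2)
    _ < ε * Z n := by
        have : 16 * ε1 * Z n + 16 * ε1 * Z n = (32 / 33) * (ε * Z n) := by
          rw [hε1]; ring
        rw [this]
        have : 0 < ε * Z n := by positivity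
        linarith

end Pool.Agent.HT
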