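import Pool.Agent.Lib_helper3.HTI.K.SM4

/-! Block SM3 -/

set_option autoImplicit false

open Finset Matrix

namespace Pool.Agent.HT

/-- the degree sum -/
theorem sm3_deg_sum {n : ℕ} (F : Finset (E n)) : ∑ v : Fin n, dg F v ≤ 2 * F.card := by
  classical
  have h1 : ∑ v : Fin n, dg F v = (Finset.univ.filter (fun p : Fin n × Fin n => inF F p.1 p.2)).card := by
    rw [Finset.card_filter, Fintype.sum_prod_type]
    refine Finset.sum_congr rfl fun v _ => ?_
    unfold dg cnt
    rw [Finset.card_filter]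
  rw [h1]
  have h2 : Finset.univ.filter (fun p : Fin n × Fin n => inF F p.1 p.2) ⊆
      F.image (fun e => e.1) ∪ F.image (fun e => (e.1.2, e.1.1)) := by
    intro p hp
    rw [Finset.mem_filter] at hp
    obtain ⟨e, he, h | h⟩ := hp.2
    · apply Finset.mem_union_left
      rw [Finset.mem_image]
      exact ⟨e, he, h⟩
    · apply Finset.mem_union_right
      rw [Finset.mem_image]
      exact ⟨e, he, by rw [h]⟩
  refine (Finset.card_le_card h2).trans ((Finset.card_union_le _ _).trans ?_)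
  have h3 := Finset.card_image_le (s := F) (f := fun e => e.1)
  have h4 := Finset.card_image_le (s := F) (f := fun e => (e.1.2, e.1.1))
  omega

/-- symmetric sums over ordered pairs -/
theorem sm3_pairs {n : ℕ} (f : Fin n → Fin n → ℝ) (hs : ∀ a b, f a b = f b a)
    (hd : ∀ a, f a a = 0) : ∑ a, ∑ b, f a b = 2 * ∑ e : E n, f e.1.1 e.1.2 := by
  classical
  have h1 : ∑ e : E n, f e.1.1 e.1.2 =
      ∑ p ∈ Finset.univ.filter (fun p : Fin n × Fin n => p.1 < p.2), f p.1 p.2 := by
    rw [← Finset.sum_subtype_eq_sum_filter]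
    refine Finset.sum_bij (fun e _ => e) ?_ ?_ ?_ ?_
    · intro e _
      simp
    · intro a _ b _ h
      exact h
    · intro b _
      exact ⟨b, Finset.mem_univ _, rfl⟩
    · intro e _
      rfl
  have h2 : ∑ a, ∑ b, f a b = ∑ p : Fin n × Fin n, f p.1 p.2 := by
    rw [Fintype.sum_prod_type]
  rw [h2, ← Finset.sum_filter_add_sum_filter_not Finset.univ (fun p : Fin n × Fin n => p.1 < p.2),
    ← h1]
  have h3 : ∑ p ∈ Finset.univ.filter (fun p : Fin n × Fin n => ¬ p.1 < p.2), f p.1 p.2 =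
      ∑ p ∈ Finset.univ.filter (fun p : Fin n × Fin n => p.2 < p.1), f p.1 p.2 := by
    symm
    apply Finset.sum_subset
    · intro p hp
      rw [Finset.mem_filter] at hp ⊢
      exact ⟨hp.1, not_lt.2 hp.2.le⟩
    · intro p hp hp'
      rw [Finset.mem_filter] at hp hp'
      have : p.1 = p.2 := by
        have h5 := hp.2
        have h6 : ¬ p.2 < p.1 := fun h => hp' ⟨Finset.mem_univ _, h⟩
        exact le_antisymm (not_lt.1 h6) (not_lt.1 h5)
      rw [this, hd]
  have h4 : ∑ p ∈ Finset.univ.filter (fun p : Fin n × Fin n => p.2 < p.1), f p.1 p.2 =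
      ∑ p ∈ Finset.univ.filter (fun p : Fin n × Fin n => p.1 < p.2), f p.1 p.2 := by
    refine Finset.sum_bij (fun p _ => (p.2, p.1)) ?_ ?_ ?_ ?_
    · intro p hp
      rw [Finset.mem_filter] at hp ⊢
      exact ⟨Finset.mem_univ _, hp.2⟩
    · intro p _ p' _ h
      rw [Prod.mk.injEq] at h
      exact Prod.ext h.2 h.1
    · intro p hp
      rw [Finset.mem_filter] at hp
      refine ⟨(p.2, p.1), ?_, rfl⟩
      rw [Finset.mem_filter]
      exact ⟨Finset.mem_univ _, hp.2⟩
    · intro p _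
      exact hs _ _
  rw [h3, h4, ← h1]
  ring

open Classical in
/-- lower bound for the field -/
theorem sm3_X_lower {n : ℕ} {L : Type} (H : Finset (Fin n)) (lab : Fin n → Fin n → L)
    (hH : (H.card : ℝ) ≤ n / 1000)
    (hlab : ∀ v ∈ H, ∀ c, (cnt (fun x => x ∉ H ∧ lab v x = c) : ℝ) ≤ 19 / 20 * n) :
    (H.card : ℝ) * ((n : ℝ) ^ 2 / 50) ≤ ∑ e, hE H lab e := by
  have hn0 : (0 : ℝ) ≤ n := by positivity
  have h1 : ∑ e, hE H lab e = ∑ v ∈ H, ∑ e : E n,
      (if e.1.1 ∉ H ∧ e.1.2 ∉ H ∧ lab v e.1.1 ≠ lab v e.1.2 then (1 : ℝ) else 0) := by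
    rw [Finset.sum_comm]
    refine Finset.sum_congr rfl fun e _ => ?_
    unfold hE
    split_ifs with h
    · unfold cnt
      rw [Finset.card_filter, Nat.cast_sum]
      have : ∑ v ∈ H, (if e.1.1 ∉ H ∧ e.1.2 ∉ H ∧ lab v e.1.1 ≠ lab v e.1.2 then (1 : ℝ) else 0) =
          ∑ v : Fin n, if v ∈ H then (if lab v e.1.1 ≠ lab v e.1.2 then (1 : ℝ) else 0) else 0 := by
        rw [Finset.sum_ite_mem, Finset.univ_inter]
        refine Finset.sum_congr rfl fun v _ => ?_
        simp only [h.1, h.2, not_false_eq_true, true_and]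
      rw [this]
      refine Finset.sum_congr rfl fun v _ => ?_
      by_cases hv : v ∈ H
      · by_cases hl : lab v e.1.1 = lab v e.1.2
        · simp [hv, hl]
        · simp [hv, hl]
      · simp [hv]
    · symm
      apply Finset.sum_eq_zero
      intro v _
      rw [if_neg]
      rintro ⟨h2, h3, _⟩
      exact h ⟨h2, h3⟩
  rw [h1, ← nsmul_eq_mul, ← Finset.sum_const]
  apply Finset.sum_le_sum
  intro v hv
  set f : Fin n → Fin n → ℝ := fun a b =>
    if a ∉ H ∧ b ∉ H ∧ lab v a ≠ lab v b then (1 : ℝ) else 0 with hf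
  have h2 := sm3_pairs f (by
    intro a b
    simp only [hf]
    congr 1
    apply propext
    constructor
    · rintro ⟨x, y, z⟩; exact ⟨y, x, z.symm⟩
    · rintro ⟨x, y, z⟩; exact ⟨y, x, z.symm⟩) (by
    intro a
    simp [hf])
  have h3 : ∑ a, ∑ b, f a b ≥ ∑ a ∈ Hᶜ, ((n : ℝ) / 20 - H.card) := by
    have h4 : ∑ a, ∑ b, f a b ≥ ∑ a ∈ Hᶜ, ∑ b, f a b := by
      apply Finset.sum_le_sum_of_subset_of_nonneg (Finset.subset_univ _)
      intro a _ _
      apply Finset.sum_nonneg
      intro b _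
      simp only [hf]
      split_ifs <;> norm_num
    refine le_trans ?_ h4
    apply Finset.sum_le_sum
    intro a ha
    rw [Finset.mem_compl] at ha
    have h5 : ∑ b, f a b = (Finset.univ.filter (fun b => b ∉ H ∧ lab v a ≠ lab v b)).card := by
      rw [Finset.card_filter, Nat.cast_sum]
      refine Finset.sum_congr rfl fun b _ => ?_
      simp only [hf, ha, not_false_eq_true, true_and]
      split_ifs <;> simp
    have h6 : ((Finset.univ.filter (fun x => x ∉ H ∧ lab v x = lab v a)).card : ℝ) ≤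
        19 / 20 * n := by
      have := hlab v hv (lab v a)
      unfold cnt at this
      convert this
    have h7 : (Finset.univ.filter (fun b => b ∉ H ∧ lab v a ≠ lab v b)).card +
        (Finset.univ.filter (fun x => x ∉ H ∧ lab v x = lab v a)).card = Hᶜ.card := by
      rw [← Finset.card_union_of_disjoint]
      · congr 1
        ext b
        simp only [Finset.mem_union, Finset.mem_filter, Finset.mem_univ, true_and,
          Finset.mem_compl]
        by_cases hb : lab v a = lab v b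
        · simp [hb]
        · have hb' : ¬ lab v b = lab v a := fun h => hb h.symm
          simp [hb, hb']
      · rw [Finset.disjoint_left]
        intro b hb hb'
        rw [Finset.mem_filter] at hb hb'
        exact hb.2.2 hb'.2.2.symm
    have h8 : (Hᶜ.card : ℝ) = n - H.card := by
      rw [Finset.card_compl, Fintype.card_fin, Nat.cast_sub]
      have := Finset.card_le_univ H
      rwa [Fintype.card_fin] at this
    have h9 : ((Finset.univ.filter (fun b => b ∉ H ∧ lab v a ≠ lab v b)).card : ℝ) +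
        (Finset.univ.filter (fun x => x ∉ H ∧ lab v x = lab v a)).card = n - H.card := by
      rw [← h8]
      exact_mod_cast h7
    rw [h5]
    linarith
  have h8 : (Hᶜ.card : ℝ) = n - H.card := by
    rw [Finset.card_compl, Fintype.card_fin, Nat.cast_sub]
    have := Finset.card_le_univ H
    rwa [Fintype.card_fin] at this
  rw [Finset.sum_const, nsmul_eq_mul, h8] at h3
  have h10 : (n : ℝ) ^ 2 / 50 ≤ ∑ e : E n, f e.1.1 e.1.2 := by
    have : ((n : ℝ) - H.card) * (n / 20 - H.card) ≥ (n : ℝ) ^ 2 / 25 := by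
      have a1 : ((n : ℝ) - H.card) ≥ 999 / 1000 * n := by linarith
      have a2 : ((n : ℝ) / 20 - H.card) ≥ 49 / 1000 * n := by linarith
      have a3 : ((n : ℝ) - H.card) * (n / 20 - H.card) ≥ (999 / 1000 * n) * (49 / 1000 * n) := by
        apply mul_le_mul a1 a2 (by positivity)
        linarith
      nlinarith [sq_nonneg (n : ℝ)]
    linarith
  exact h10

/-- product over the light vertices -/
theorem sm3_prod {n : ℕ} (hn : 1 ≤ n) {L : Type} (H : Finset (Fin n)) (g : Fin n → L)
    (F : Finset (E n)) (ε0 k' : ℝ) (hk : 0 < k') (hH : (H.card : ℝ) ≤ 20 * ε0 * n)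
    (hF : (F.card : ℝ) ≤ ε0 * (n : ℝ) ^ 2) :
    ∏ x ∈ Hᶜ, (((H.card : ℝ) + dg F x + cnt (fun y => y ∉ H ∧ g y = g x)) / n) ≤
      Real.exp (22 * ε0 * n / k') *
        ∏ x ∈ Hᶜ, ((cnt (fun y => y ∉ H ∧ g y = g x) : ℝ) / n + k') := by
  have hn0 : (0 : ℝ) < n := by exact_mod_cast hn
  have h1 : ∀ x ∈ Hᶜ, (((H.card : ℝ) + dg F x + cnt (fun y => y ∉ H ∧ g y = g x)) / n) ≤
      Real.exp (((H.card : ℝ) + dg F x) / n / k') *
        ((cnt (fun y => y ∉ H ∧ g y = g x) : ℝ) / n + k') := by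
    intro x _
    set κ := ((H.card : ℝ) + dg F x) / n with hκ
    set α := (cnt (fun y => y ∉ H ∧ g y = g x) : ℝ) / n with hα
    have hκ0 : 0 ≤ κ := by positivity
    have hα0 : 0 ≤ α := by positivity
    have e1 : (((H.card : ℝ) + dg F x + cnt (fun y => y ∉ H ∧ g y = g x)) / n) = κ + α := by
      rw [hκ, hα, add_div]
    rw [e1]
    have e2 : κ / k' + 1 ≤ Real.exp (κ / k') := Real.add_one_le_exp _
    calc κ + α ≤ (κ / k' + 1) * (α + k') := by
          have : (κ / k' + 1) * (α + k') = κ + α + k' + κ / k' * α := by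
            field_simp; ring
          rw [this]
          have : 0 ≤ κ / k' * α := by positivity
          linarith
      _ ≤ Real.exp (κ / k') * (α + k') := by gcongr
  refine (Finset.prod_le_prod (fun x _ => by positivity) h1).trans ?_
  rw [Finset.prod_mul_distrib, ← Real.exp_sum]
  have h2 : ∑ x ∈ Hᶜ, ((H.card : ℝ) + dg F x) / n / k' ≤ 22 * ε0 * n / k' := by
    rw [← Finset.sum_div, ← Finset.sum_div]
    have h3 : ∑ x ∈ Hᶜ, ((H.card : ℝ) + dg F x) ≤ 22 * ε0 * n * n := by
      have h4 : ∑ x ∈ Hᶜ, ((H.card : ℝ) + dg F x) ≤ ∑ x : Fin n, ((H.card : ℝ) + dg F x) :=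
        Finset.sum_le_sum_of_subset_of_nonneg (Finset.subset_univ _)
          (fun _ _ _ => by positivity)
      refine h4.trans ?_
      rw [Finset.sum_add_distrib, Finset.sum_const, Finset.card_univ, Fintype.card_fin,
        nsmul_eq_mul]
      have h5 : ∑ x : Fin n, (dg F x : ℝ) ≤ 2 * F.card := by exact_mod_cast sm3_deg_sum F
      nlinarith
    gcongr
    rw [div_le_iff₀ hn0]
    exact h3
  gcongr

/-- weight of a labelling -/
noncomputable def sm3_w {n q : ℕ} (H : Finset (Fin n)) (k' : ℝ) (g : Fin n → ZMod q) : ℝ :=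
  ∏ x ∈ Hᶜ, ((cnt (fun y => y ∉ H ∧ g y = g x) : ℝ) / n + k')

theorem sm3_w_nonneg {n q : ℕ} (H : Finset (Fin n)) (k' : ℝ) (hk : 0 < k')
    (g : Fin n → ZMod q) : 0 ≤ sm3_w H k' g := by
  unfold sm3_w
  exact Finset.prod_nonneg fun _ _ => by positivity

open Classical in
/-- sum over `F` for given `H` and labels -/
theorem sm3_F (n : ℕ) (q : ℕ) (hn : 10000 ≤ n) (ε0 k' : ℝ) (h0 : 0 < ε0)
    (h0' : ε0 ≤ 1 / 20000) (hk : 0 < k') (H : Finset (Fin n)) (lab : Fin n → Fin n → ZMod q) :
    ∑ F : Finset (E n), (if HeavyCfg q ε0 H lab F then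
      mass (fun τ : E' n → Tri n => ∀ i, ¬ YY H lab F (τ i)) else 0) ≤
      20 * Z n * ∏ v ∈ H, ((Real.exp (-(n / 100)) * Real.exp (22 * ε0 * n / k')) *
        sm3_w H k' (lab v)) := by
  have hn1 : 1 ≤ n := by omega
  have hn0 : (0 : ℝ) < n := by exact_mod_cast hn1
  have hnr : (10000 : ℝ) ≤ n := by exact_mod_cast hn
  have hZ := sm4_Z_nonneg n
  by_cases hcfg : (H.card : ℝ) ≤ 20 * ε0 * n ∧
      ∀ v ∈ H, ∀ c, (cnt (fun x => x ∉ H ∧ lab v x = c) : ℝ) ≤ 19 / 20 * n
  swap
  · have : ∀ F : Finset (E n), (if HeavyCfg q ε0 H lab F then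
      mass (fun τ : E' n → Tri n => ∀ i, ¬ YY H lab F (τ i)) else 0) = 0 := by
      intro F
      rw [if_neg]
      rintro ⟨_, h2, h3, _⟩
      exact hcfg ⟨h2, h3⟩
    rw [Finset.sum_congr rfl fun F _ => this F, Finset.sum_const_zero]
    apply mul_nonneg (by positivity)
    apply Finset.prod_nonneg
    intro v _
    have := sm3_w_nonneg H k' hk (lab v)
    positivity
  obtain ⟨hH, hlab⟩ := hcfg
  have hH' : (H.card : ℝ) ≤ n / 1000 := by nlinarith
  set X := ∑ e, hE H lab e with hX
  have hXl : (H.card : ℝ) * ((n : ℝ) ^ 2 / 50) ≤ X := sm3_X_lower H lab hH' hlab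
  set ρ := Real.exp (-1.8 + (12 + 3 * H.card) / n) with hρ
  have hρ' : ρ * (2 * Real.exp 1) ≤ 0.95 := by
    apply sm4_rho
    rw [div_le_iff₀ hn0]
    linarith
  set P := ∏ v ∈ H, (Real.exp (22 * ε0 * n / k') * sm3_w H k' (lab v)) with hP
  have hP0 : 0 ≤ P := by
    apply Finset.prod_nonneg
    intro v _
    have := sm3_w_nonneg H k' hk (lab v)
    positivity
  have hdet : ∀ F : Finset (E n), 0 ≤ (AF F (hE H lab)).det := fun F =>
    (sm4_AF_psd F _ (sm4_hE_nonneg _ _)).det_nonneg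
  have h1 : ∀ F : Finset (E n), (if HeavyCfg q ε0 H lab F then
      mass (fun τ : E' n → Tri n => ∀ i, ¬ YY H lab F (τ i)) else 0) ≤
      (Z n * Real.exp (-(X / n)) * P) *
        (ρ ^ F.card * (((n : ℝ) ^ F.card)⁻¹ * (AF F (hE H lab)).det)) := by
    intro F
    split_ifs with hc
    · obtain ⟨_, _, _, c1, c2, c3⟩ := hc
      have := sm4_config n hn1 H lab F c1 c3
      refine this.trans ?_
      have hR : ∏ v ∈ H, ∏ x ∈ Hᶜ,
          (((H.card : ℝ) + dg F x + cnt (fun y => y ∉ H ∧ lab v y = lab v x)) / n) ≤ P := by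
        apply Finset.prod_le_prod
        · intro v _
          exact Finset.prod_nonneg fun _ _ => by positivity
        · intro v _
          exact sm3_prod hn1 H (lab v) F ε0 k' hk hH c2
      have hd := hdet F
      calc _ ≤ Z n * (Real.exp (-(X / n)) * ρ ^ F.card *
            (((n : ℝ) ^ F.card)⁻¹ * (AF F (hE H lab)).det) * P) := by
            gcongr
        _ = _ := by ring
    · have hd := hdet F
      positivity
  refine (Finset.sum_le_sum fun F _ => h1 F).trans ?_
  rw [← Finset.mul_sum]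
  have h2 : ∑ F : Finset (E n), ρ ^ F.card * (((n : ℝ) ^ F.card)⁻¹ * (AF F (hE H lab)).det) ≤
      20 * Real.exp (X / (2 * n)) := by
    rw [sm4_powerset_sum]
    refine (Finset.sum_le_sum fun w _ => sm4_Fsum n hn1 (hE H lab) (sm4_hE_nonneg _ _) ρ
      (Real.exp_pos _).le hρ' w).trans ?_
    rw [← Finset.sum_mul]
    have := sm4_geom (Fintype.card (E n) + 1)
    gcongr
  have h3 : Real.exp (-(X / n)) * Real.exp (X / (2 * n)) ≤
      ∏ v ∈ H, Real.exp (-(n / 100)) := by
    rw [Finset.prod_const, ← Real.exp_nat_mul, ← Real.exp_add]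
    apply Real.exp_le_exp.2
    have e1 : -(X / n) + X / (2 * n) = -(X / (2 * n)) := by field_simp; ring
    rw [e1]
    have e2 : (H.card : ℝ) * (n / 100) ≤ X / (2 * n) := by
      rw [le_div_iff₀ (by positivity)]
      calc (H.card : ℝ) * (n / 100) * (2 * n) = (H.card : ℝ) * ((n : ℝ) ^ 2 / 50) := by ring
        _ ≤ X := hXl
    linarith
  calc (Z n * Real.exp (-(X / n)) * P) * ∑ F : Finset (E n),
        ρ ^ F.card * (((n : ℝ) ^ F.card)⁻¹ * (AF F (hE H lab)).det) ≤
      (Z n * Real.exp (-(X / n)) * P) * (20 * Real.exp (X / (2 * n))) := by gcongr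
    _ = 20 * Z n * ((Real.exp (-(X / n)) * Real.exp (X / (2 * n))) * P) := by ring
    _ ≤ 20 * Z n * ((∏ v ∈ H, Real.exp (-(n / 100))) * P) := by gcongr
    _ = _ := by
      rw [hP, ← Finset.prod_mul_distrib]
      congr 1
      exact Finset.prod_congr rfl fun v _ => by ring

end Pool.Agent.HT
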