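import Pool.Agent.Lib_helper59.HT.Defs2
import Pool.Agent.Lib_helper59.HT.A_KF_bound
import Pool.Agent.Lib_helper3.HTI.K.A_LF_le
import Pool.Agent.Lib_helper59.HT.A_detsum
import Pool.Agent.Lib_helper3.HTI.K.A_iso_bound
import Pool.Agent.Lib_helper3.HTI.K.A_prod_bound

/-! Block SM4 and the common part of SM3, SM4: one configuration, sum over `F` -/

set_option autoImplicit false

open Finset Matrix

namespace Pool.Agent.HT

theorem sm4_Z_nonneg (n : ℕ) : 0 ≤ Z n := Finset.sum_nonneg fun _ _ => sq_nonneg _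

theorem sm4_mass_nonneg {n : ℕ} (A : (E' n → Tri n) → Prop) : 0 ≤ mass A := by
  unfold mass
  apply Finset.sum_nonneg
  intro τ _
  split_ifs
  · exact sq_nonneg _
  · exact le_rfl

/-- union bound -/
theorem sm4_union {n : ℕ} {ι : Type*} (s : Finset ι) (A : ι → (E' n → Tri n) → Prop)
    (B : (E' n → Tri n) → Prop) (h : ∀ τ, B τ → ∃ i ∈ s, A i τ) :
    mass B ≤ ∑ i ∈ s, mass (A i) := by
  classical
  unfold mass
  rw [Finset.sum_comm]
  apply Finset.sum_le_sum
  intro τ _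
  have hnn : ∀ i ∈ s, (0 : ℝ) ≤ (if A i τ then wt τ else 0) := by
    intro i _
    split_ifs
    · exact sq_nonneg _
    · exact le_rfl
  split_ifs with hB
  · obtain ⟨i, hi, hA⟩ := h τ hB
    have := Finset.single_le_sum hnn hi
    rwa [if_pos hA] at this
  · exact Finset.sum_nonneg hnn

/-- symmetry of the forbidden triples -/
theorem sm4_inF_symm {n : ℕ} (F : Finset (E n)) (u v : Fin n) : inF F u v ↔ inF F v u := by
  unfold inF
  constructor <;> rintro ⟨e, he, h | h⟩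
  · exact ⟨e, he, Or.inr h⟩
  · exact ⟨e, he, Or.inl h⟩
  · exact ⟨e, he, Or.inr h⟩
  · exact ⟨e, he, Or.inl h⟩

theorem sm4_inF_irrefl {n : ℕ} (F : Finset (E n)) (u : Fin n) : ¬ inF F u u := by
  rintro ⟨e, _, h | h⟩ <;>
  · have := e.2
    rw [h] at this
    exact lt_irrefl _ this

theorem sm4_sym {n : ℕ} {L : Type} (H : Finset (Fin n)) (lab : Fin n → Fin n → L)
    (F : Finset (E n)) : SymT (YY H lab F) := by
  intro a b c h
  have s1 := sm4_inF_symm F a b
  have s2 := sm4_inF_symm F b c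
  have s3 := sm4_inF_symm F c a
  have hY : ∀ a b c : Fin n, Y1 H lab F a b c → Y1 H lab F a c b := by
    rintro a b c ⟨h1, h2, h3, h4, h5⟩
    refine ⟨h1, h3, h2, h4.symm, ?_⟩
    rw [sm4_inF_symm, h5]
    exact eq_comm
  simp only [YY] at h ⊢
  refine ⟨?_, ?_, ?_⟩
  · rcases h with ⟨h1, h2, h3, h4⟩ | h | h | h
    · left
      refine ⟨h2, h1, h3, ?_⟩
      simp only [YI, One3] at h4 ⊢
      tauto
    · right; right; left
      exact hY _ _ _ h
    · right; left
      exact hY _ _ _ h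
    · right; right; right
      exact hY _ _ _ h
  · rcases h with ⟨h1, h2, h3, h4⟩ | h | h | h
    · left
      refine ⟨h2, h3, h1, ?_⟩
      simp only [YI, One3] at h4 ⊢
      tauto
    · right; right; right
      exact h
    · right; left
      exact h
    · right; right; left
      exact h
  · rintro rfl
    rcases h with ⟨h1, h2, h3, h4⟩ | h | h | h
    · simp only [YI, One3] at h4
      have := sm4_inF_irrefl F a
      tauto
    · exact h.2.1 h.1
    · exact h.2.2.1 h.1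
    · exact h.2.2.2.1 rfl

theorem sm4_NN_symm {n : ℕ} (e e' : Fin n × Fin n) : NN e e' = NN e' e := by
  unfold NN
  by_cases h : e = e'
  · subst h; rfl
  · rw [if_neg h, if_neg (Ne.symm h)]
    exact Finset.sum_congr rfl fun v _ => mul_comm _ _

theorem sm4_AF_psd {n : ℕ} (F : Finset (E n)) (h : E n → ℝ) (hh : ∀ e, 0 ≤ h e) :
    (AF F h).PosSemidef := by
  apply Matrix.PosSemidef.of_dotProduct_mulVec_nonneg
  · ext i j
    simp only [AF, Matrix.conjTranspose_apply, Matrix.of_apply, star_trivial]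
    rw [sm4_NN_symm i.1.1 j.1.1]
    by_cases hij : i = j
    · subst hij; rfl
    · rw [if_neg hij, if_neg (Ne.symm hij)]
  · intro x
    have key : star x ⬝ᵥ (AF F h) *ᵥ x = ∑ i, h i.1 * x i ^ 2 +
        (1 / 2) * ∑ i, ∑ j, (|(NN i.1.1 j.1.1 : ℝ)| * (x i ^ 2 + x j ^ 2) -
          2 * (NN i.1.1 j.1.1 : ℝ) * (x i * x j)) := by
      simp only [dotProduct, mulVec, AF, Matrix.of_apply, star_trivial, Pi.star_apply]
      have h1 : ∀ i : F, x i * ∑ j : F, ((if i = j then h i.1 +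
          ∑ e'' : F, |(NN i.1.1 e''.1.1 : ℝ)| else 0) - (NN i.1.1 j.1.1 : ℝ)) * x j =
          h i.1 * x i ^ 2 + ∑ j : F, |(NN i.1.1 j.1.1 : ℝ)| * x i ^ 2 -
            ∑ j : F, (NN i.1.1 j.1.1 : ℝ) * (x i * x j) := by
        intro i
        simp only [sub_mul, Finset.sum_sub_distrib, ite_mul, zero_mul, Finset.sum_ite_eq,
          Finset.mem_univ, if_true]
        rw [mul_sub, add_mul, ← Finset.sum_mul, Finset.mul_sum]
        congr 1
        · ring
        · exact Finset.sum_congr rfl fun j _ => by ring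
      rw [Finset.sum_congr rfl fun i _ => h1 i, Finset.sum_sub_distrib, Finset.sum_add_distrib]
      have h2 : ∑ i : F, ∑ j : F, |(NN i.1.1 j.1.1 : ℝ)| * x i ^ 2 =
          ∑ i : F, ∑ j : F, |(NN i.1.1 j.1.1 : ℝ)| * x j ^ 2 := by
        rw [Finset.sum_comm]
        refine Finset.sum_congr rfl fun i _ => Finset.sum_congr rfl fun j _ => ?_
        rw [sm4_NN_symm]
      have h3 : ∑ i : F, ∑ j : F, (|(NN i.1.1 j.1.1 : ℝ)| * (x i ^ 2 + x j ^ 2) -
          2 * (NN i.1.1 j.1.1 : ℝ) * (x i * x j)) =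
          ∑ i : F, ∑ j : F, |(NN i.1.1 j.1.1 : ℝ)| * x i ^ 2 +
          ∑ i : F, ∑ j : F, |(NN i.1.1 j.1.1 : ℝ)| * x j ^ 2 -
          2 * ∑ i : F, ∑ j : F, (NN i.1.1 j.1.1 : ℝ) * (x i * x j) := by
        rw [Finset.mul_sum, ← Finset.sum_add_distrib, ← Finset.sum_sub_distrib]
        refine Finset.sum_congr rfl fun i _ => ?_
        rw [Finset.mul_sum, ← Finset.sum_add_distrib, ← Finset.sum_sub_distrib]
        exact Finset.sum_congr rfl fun j _ => by ring
      rw [h3, ← h2]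
      ring
    rw [key]
    apply add_nonneg
    · exact Finset.sum_nonneg fun i _ => mul_nonneg (hh _) (sq_nonneg _)
    · apply mul_nonneg (by norm_num)
      apply Finset.sum_nonneg
      intro i _
      apply Finset.sum_nonneg
      intro j _
      have a1 : (NN i.1.1 j.1.1 : ℝ) * (x i * x j) ≤ |(NN i.1.1 j.1.1 : ℝ)| * |x i * x j| := by
        rw [← abs_mul]; exact le_abs_self _
      have a2 : 2 * |x i * x j| ≤ x i ^ 2 + x j ^ 2 := by
        rw [abs_mul]
        nlinarith [sq_nonneg (|x i| - |x j|), sq_abs (x i), sq_abs (x j)]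
      have a3 : 0 ≤ |(NN i.1.1 j.1.1 : ℝ)| := abs_nonneg _
      nlinarith [mul_le_mul_of_nonneg_left a2 a3]

theorem sm4_hE_nonneg {n : ℕ} {L : Type} (H : Finset (Fin n)) (lab : Fin n → Fin n → L)
    (e : E n) : 0 ≤ hE H lab e := by
  unfold hE
  split_ifs
  · positivity
  · exact le_rfl

theorem sm4_cnt_le {n : ℕ} (A : Fin n → Prop) : cnt A ≤ n := by
  unfold cnt
  refine (Finset.card_le_univ _).trans ?_
  simp

/-- the bound for one configuration -/
theorem sm4_config {L : Type} (n : ℕ) (hn : 1 ≤ n) (H : Finset (Fin n))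
    (lab : Fin n → Fin n → L) (F : Finset (E n)) (hF : ∀ e ∈ F, e.1.1 ∉ H ∧ e.1.2 ∉ H)
    (hD : ∀ v, (dg F v : ℝ) ≤ n / 20) :
    mass (fun τ : E' n → Tri n => ∀ i, ¬ YY H lab F (τ i)) ≤
      Z n * (Real.exp (-((∑ e, hE H lab e) / n)) *
        Real.exp (-1.8 + (12 + 3 * H.card) / n) ^ F.card *
        (((n : ℝ) ^ F.card)⁻¹ * (AF F (hE H lab)).det) *
        ∏ v ∈ H, ∏ x ∈ Hᶜ,
        (((H.card : ℝ) + dg F x + cnt (fun y => y ∉ H ∧ lab v y = lab v x)) / n)) := by
  have hn0 : (0 : ℝ) < n := by exact_mod_cast hn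
  have h1 := iso_bound n hn (YY H lab F) (sm4_sym H lab F) F
  have h2 := KF_bound n hn F (by
    intro v
    have := hD v
    have h' : (4 * dg F v : ℝ) ≤ n := by linarith
    exact_mod_cast h')
  have h3 := LF_le n hn H lab F hF
  have h4 := prod_bound n hn H lab F hF (n / 20) hD
  set m := mass (fun τ : E' n → Tri n => ∀ i, ¬ YY H lab F (τ i)) with hm
  set d := (1 - (1 / (n : ℝ)) • KF F).det with hd
  set P := ∏ e ∈ Fᶜ, (1 - (cnt (fun c : Fin n => YY H lab F (e.1.1, e.1.2, c)) : ℝ) / n) with hP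
  set R := ∏ v ∈ H, ∏ x ∈ Hᶜ,
        (((H.card : ℝ) + dg F x + cnt (fun y => y ∉ H ∧ lab v y = lab v x)) / n) with hR
  have hm0 : 0 ≤ m := sm4_mass_nonneg _
  have hP0 : 0 ≤ P := by
    apply Finset.prod_nonneg
    intro e _
    rw [sub_nonneg, div_le_one hn0]
    exact_mod_cast sm4_cnt_le _
  have hdet : 0 ≤ (AF F (hE H lab)).det := (sm4_AF_psd F _ (sm4_hE_nonneg H lab)).det_nonneg
  have h5 : m * Real.exp (-(8 * (F.card : ℝ) / n)) ≤ m * d ^ 2 := by
    have : Real.exp (-(8 * (F.card : ℝ) / n)) = Real.exp (-(4 * (F.card : ℝ) / n)) ^ 2 := by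
      rw [← Real.exp_nat_mul]; congr 1; push_cast; ring
    rw [this]
    gcongr
  have h6 : m * Real.exp (-(8 * (F.card : ℝ) / n)) ≤
      Z n * (((n : ℝ) ^ F.card)⁻¹ * (AF F (hE H lab)).det) *
        (Real.exp (-((2 * F.card * (n - H.card - 2 - 2 * (n / 20 : ℝ)) + ∑ e, hE H lab e
        - F.card * H.card) / n)) * R) := by
    refine h5.trans (h1.trans ?_)
    have := sm4_Z_nonneg n
    gcongr
  have h7 : m = m * Real.exp (-(8 * (F.card : ℝ) / n)) * Real.exp (8 * (F.card : ℝ) / n) := by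
    rw [mul_assoc, ← Real.exp_add]
    simp
  rw [h7]
  refine (mul_le_mul_of_nonneg_right h6 (Real.exp_pos _).le).trans (le_of_eq ?_)
  have h8 : Real.exp (-((2 * F.card * (n - H.card - 2 - 2 * (n / 20 : ℝ)) + ∑ e, hE H lab e
        - F.card * H.card) / n)) * Real.exp (8 * (F.card : ℝ) / n) =
      Real.exp (-((∑ e, hE H lab e) / n)) *
        Real.exp (-1.8 + (12 + 3 * H.card) / n) ^ F.card := by
    rw [← Real.exp_nat_mul, ← Real.exp_add, ← Real.exp_add]
    congr 1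
    field_simp
    ring
  calc _ = Z n * (((n : ℝ) ^ F.card)⁻¹ * (AF F (hE H lab)).det) * R *
        (Real.exp (-((2 * F.card * (n - H.card - 2 - 2 * (n / 20 : ℝ)) + ∑ e, hE H lab e
        - F.card * H.card) / n)) * Real.exp (8 * (F.card : ℝ) / n)) := by ring
    _ = _ := by rw [h8]; ring

/-- the sum over all `F` with `w` elements -/
theorem sm4_Fsum (n : ℕ) (hn : 1 ≤ n) (h : E n → ℝ) (hh : ∀ e, 0 ≤ h e) (ρ : ℝ) (hρ : 0 ≤ ρ)
    (hρ' : ρ * (2 * Real.exp 1) ≤ 0.95) (w : ℕ) :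
    ∑ F ∈ (Finset.univ : Finset (E n)).powersetCard w,
      ρ ^ F.card * (((n : ℝ) ^ F.card)⁻¹ * (AF F h).det) ≤
      0.95 ^ w * Real.exp ((∑ e, h e) / (2 * n)) := by
  have hn0 : (0 : ℝ) < n := by exact_mod_cast hn
  have h1 := detsum n w h hh
  set X := ∑ e, h e with hX
  have hX0 : 0 ≤ X := Finset.sum_nonneg fun e _ => hh e
  have h2 : ∑ F ∈ (Finset.univ : Finset (E n)).powersetCard w,
      ρ ^ F.card * (((n : ℝ) ^ F.card)⁻¹ * (AF F h).det) =
      ρ ^ w * (((n : ℝ) ^ w)⁻¹ * ∑ F ∈ (Finset.univ : Finset (E n)).powersetCard w,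
        (AF F h).det) := by
    rw [Finset.mul_sum, Finset.mul_sum]
    refine Finset.sum_congr rfl fun F hF => ?_
    rw [(Finset.mem_powersetCard.1 hF).2]
  rw [h2]
  calc ρ ^ w * (((n : ℝ) ^ w)⁻¹ * ∑ F ∈ (Finset.univ : Finset (E n)).powersetCard w,
        (AF F h).det) ≤ ρ ^ w * (((n : ℝ) ^ w)⁻¹ * ((X + 2 * n * w) ^ w / w.factorial)) := by
        gcongr
    _ = (ρ * 2) ^ w * ((X / (2 * n) + w) ^ w / w.factorial) := by
        have : X + 2 * n * w = (2 * n) * (X / (2 * n) + w) := by field_simp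
        rw [this, mul_pow, mul_pow, mul_pow]
        field_simp
    _ ≤ (ρ * 2) ^ w * Real.exp (X / (2 * n) + w) := by
        gcongr
        exact Real.pow_div_factorial_le_exp _ (by positivity) w
    _ = (ρ * (2 * Real.exp 1)) ^ w * Real.exp (X / (2 * n)) := by
        rw [Real.exp_add, ← mul_assoc ρ 2, mul_pow (ρ * 2), ← Real.exp_nat_mul, mul_one]
        ring
    _ ≤ 0.95 ^ w * Real.exp (X / (2 * n)) := by gcongr

theorem sm4_powerset_sum {n : ℕ} (f : Finset (E n) → ℝ) :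
    ∑ F : Finset (E n), f F = ∑ w ∈ Finset.range (Fintype.card (E n) + 1),
      ∑ F ∈ (Finset.univ : Finset (E n)).powersetCard w, f F := by
  rw [← Finset.powerset_univ, Finset.sum_powerset]
  rfl

theorem sm4_rho {t : ℝ} (ht : t ≤ 0.012) :
    Real.exp (-1.8 + t) * (2 * Real.exp 1) ≤ 0.95 := by
  have h1 : Real.exp (-1.8 + t) ≤ Real.exp (-1.788) := Real.exp_le_exp.2 (by linarith)
  have h2 : Real.exp (-1.788) * (2 * Real.exp 1) = 2 / Real.exp 0.788 := by
    rw [eq_div_iff (Real.exp_pos _).ne']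
    have : Real.exp (-1.788) * (2 * Real.exp 1) * Real.exp 0.788 =
      2 * (Real.exp (-1.788) * Real.exp 1 * Real.exp 0.788) := by ring
    rw [this, ← Real.exp_add, ← Real.exp_add]
    norm_num
  have h3 : (2.18 : ℝ) ≤ Real.exp 0.788 := by
    have := Real.sum_le_exp_of_nonneg (show (0 : ℝ) ≤ 0.788 by norm_num) 4
    norm_num [Finset.sum_range_succ, Nat.factorial] at this
    linarith
  calc Real.exp (-1.8 + t) * (2 * Real.exp 1) ≤ Real.exp (-1.788) * (2 * Real.exp 1) := by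
        gcongr
    _ = 2 / Real.exp 0.788 := h2
    _ ≤ 2 / 2.18 := by gcongr
    _ ≤ 0.95 := by norm_num

theorem sm4_geom (M : ℕ) : ∑ w ∈ Finset.range M, (0.95 : ℝ) ^ w ≤ 20 := by
  have h := hasSum_geometric_of_lt_one (r := (0.95 : ℝ)) (by norm_num) (by norm_num)
  have := sum_le_hasSum (Finset.range M) (fun i _ => by positivity) h
  refine this.trans (by norm_num)

theorem sm4_geom' (M : ℕ) : ∑ w ∈ Finset.range M, (w : ℝ) * (0.95 : ℝ) ^ w ≤ 380 := by
  have h := hasSum_coe_mul_geometric_of_norm_lt_one (r := (0.95 : ℝ)) (by norm_num)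
  have := sum_le_hasSum (Finset.range M) (fun i _ => by positivity) h
  refine this.trans (by norm_num)

theorem sm4_YI {n : ℕ} (F : Finset (E n)) (t : Tri n) :
    YY (∅ : Finset (Fin n)) (fun _ _ => (0 : ℕ)) F t ↔ YI F t := by
  simp [YY, Y1]

theorem sm4_hE_empty {n : ℕ} (e : E n) :
    hE (∅ : Finset (Fin n)) (fun _ _ => (0 : ℕ)) e = 0 := by
  unfold hE cnt
  simp

open Classical in
/-- BLOCK SM4 -/
theorem isolated_sum_pr : ∃ (C : ℝ) (N : ℕ), 0 < C ∧ ∀ n : ℕ, N ≤ n →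
    ∑ F : Finset (E n), (if ∀ v, (dg F v : ℝ) ≤ n / 20 then
      (F.card : ℝ) * mass (fun τ : E' n → Tri n => ∀ i, ¬ YI F (τ i)) else 0) ≤ C * Z n := by
  refine ⟨380, 1000, by norm_num, fun n hn => ?_⟩
  have hn1 : 1 ≤ n := by omega
  have hn0 : (0 : ℝ) < n := by exact_mod_cast hn1
  have hnr : (1000 : ℝ) ≤ n := by exact_mod_cast hn
  have hZ := sm4_Z_nonneg n
  set h0 : E n → ℝ := hE (∅ : Finset (Fin n)) (fun _ _ => (0 : ℕ)) with hh0
  have hX : ∑ e, h0 e = 0 := Finset.sum_eq_zero fun e _ => sm4_hE_empty e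
  set ρ := Real.exp (-1.8 + 12 / n) with hρ
  have hρ' : ρ * (2 * Real.exp 1) ≤ 0.95 := by
    apply sm4_rho
    rw [div_le_iff₀ hn0]
    linarith
  have hdet : ∀ F : Finset (E n), 0 ≤ (AF F h0).det := fun F =>
    (sm4_AF_psd F _ (sm4_hE_nonneg _ _)).det_nonneg
  have h1 : ∀ F : Finset (E n), (if ∀ v, (dg F v : ℝ) ≤ n / 20 then
      (F.card : ℝ) * mass (fun τ : E' n → Tri n => ∀ i, ¬ YI F (τ i)) else 0) ≤
      Z n * ((F.card : ℝ) * (ρ ^ F.card * (((n : ℝ) ^ F.card)⁻¹ * (AF F h0).det))) := by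
    intro F
    have hnn : 0 ≤ Z n * ((F.card : ℝ) *
        (ρ ^ F.card * (((n : ℝ) ^ F.card)⁻¹ * (AF F h0).det))) := by
      have := hdet F
      positivity
    split_ifs with hD
    · have := sm4_config n hn1 ∅ (fun _ _ => (0 : ℕ)) F (by simp) hD
      simp only [sm4_YI, Finset.prod_empty, mul_one, Finset.card_empty, Nat.cast_zero,
        mul_zero, add_zero] at this
      rw [← hh0, hX, zero_div, neg_zero, Real.exp_zero, one_mul, ← hρ] at this
      calc (F.card : ℝ) * mass (fun τ : E' n → Tri n => ∀ i, ¬ YI F (τ i)) ≤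
          (F.card : ℝ) * (Z n * (ρ ^ F.card * (((n : ℝ) ^ F.card)⁻¹ * (AF F h0).det))) := by
            gcongr
        _ = _ := by ring
    · exact hnn
  refine (Finset.sum_le_sum fun F _ => h1 F).trans ?_
  rw [← Finset.mul_sum, mul_comm]
  refine mul_le_mul_of_nonneg_right ?_ hZ
  rw [sm4_powerset_sum]
  refine le_trans (Finset.sum_le_sum fun w _ => ?_) (sm4_geom' (Fintype.card (E n) + 1))
  have h2 := sm4_Fsum n hn1 h0 (sm4_hE_nonneg _ _) ρ (Real.exp_pos _).le hρ' w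
  rw [hX, zero_div, Real.exp_zero, mul_one] at h2
  calc ∑ F ∈ (Finset.univ : Finset (E n)).powersetCard w,
        (F.card : ℝ) * (ρ ^ F.card * (((n : ℝ) ^ F.card)⁻¹ * (AF F h0).det)) =
      (w : ℝ) * ∑ F ∈ (Finset.univ : Finset (E n)).powersetCard w,
        ρ ^ F.card * (((n : ℝ) ^ F.card)⁻¹ * (AF F h0).det) := by
        rw [Finset.mul_sum]
        refine Finset.sum_congr rfl fun F hF => ?_
        rw [(Finset.mem_powersetCard.1 hF).2]
    _ ≤ (w : ℝ) * 0.95 ^ w := by gcongr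

end Pool.Agent.HT
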