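import Pool.Agent.Lib_helper59.HT.Defs2
import Pool.Agent.Lib_helper59.HT.A_Z_pos
import Pool.Agent.Lib_helper59.HT.A_few_supported
import Pool.Agent.Lib_helper59.HT.A_gauge_cases
import Pool.Agent.Lib_helper3.HTI.K.A_heavy_small
import Pool.Agent.Lib_helper3.HTI.K.A_isolated_sum

/-! BLOCK SM7: `few_small` from SM3-SM6 -/

set_option autoImplicit false

open Finset Matrix

namespace Pool.Agent.HT

lemma sm7_wt_nonneg {n : ℕ} (τ : E' n → Tri n) : 0 ≤ wt τ := sq_nonneg _

lemma sm7_mass_mono {n : ℕ} {A B : (E' n → Tri n) → Prop} (h : ∀ τ, wt τ ≠ 0 → A τ → B τ) :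
    mass A ≤ mass B := by
  classical
  unfold mass
  apply Finset.sum_le_sum
  intro τ _
  by_cases hA : A τ
  · by_cases hw : wt τ = 0
    · simp [hw]
    · simp [hA, h τ hw hA]
  · simp only [hA, if_false]
    split_ifs
    · exact sm7_wt_nonneg τ
    · exact le_rfl

lemma sm7_mass_or {n : ℕ} (A B : (E' n → Tri n) → Prop) :
    mass (fun τ => A τ ∨ B τ) ≤ mass A + mass B := by
  classical
  unfold mass
  rw [← Finset.sum_add_distrib]
  apply Finset.sum_le_sum
  intro τ _
  have := sm7_wt_nonneg τ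
  by_cases hA : A τ <;> by_cases hB : B τ <;> simp [hA, hB, this]

open Classical in
/-- sum of the sizes of the isolated sets of low degree -/
noncomputable def sm7_S {n : ℕ} (τ : E' n → Tri n) : ℝ :=
  ∑ F : Finset (E n), (if (∀ v, (dg F v : ℝ) ≤ n / 20) then
    (if ∀ i, ¬ YI F (τ i) then (F.card : ℝ) else 0) else 0)

lemma sm7_S_nonneg {n : ℕ} (τ : E' n → Tri n) : 0 ≤ sm7_S τ := by
  classical
  unfold sm7_S
  apply Finset.sum_nonneg
  intro F _
  split_ifs <;> positivity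

/-- Markov -/
lemma sm7_markov {n : ℕ} (K : ℝ) (hK : 0 < K) (X : ℝ)
    (hX : ∑ τ : E' n → Tri n, wt τ * sm7_S τ ≤ X) :
    mass (fun τ : E' n → Tri n => K < sm7_S τ) ≤ X / K := by
  classical
  rw [le_div_iff₀ hK]
  refine le_trans ?_ hX
  unfold mass
  rw [Finset.sum_mul]
  apply Finset.sum_le_sum
  intro τ _
  have hw := sm7_wt_nonneg τ
  split_ifs with h
  · exact mul_le_mul_of_nonneg_left h.le hw
  · rw [zero_mul]
    exact mul_nonneg hw (sm7_S_nonneg τ)

lemma sm7_expect {n : ℕ} :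
    ∑ τ : E' n → Tri n, wt τ * sm7_S τ =
    ∑ F : Finset (E n), (open Classical in if ∀ v, (dg F v : ℝ) ≤ n / 20 then
      (F.card : ℝ) * mass (fun τ : E' n → Tri n => ∀ i, ¬ YI F (τ i)) else 0) := by
  classical
  unfold sm7_S
  simp only [Finset.mul_sum]
  rw [Finset.sum_comm]
  apply Finset.sum_congr rfl
  intro F _
  by_cases h1 : ∀ v, (dg F v : ℝ) ≤ n / 20
  · simp only [if_pos h1]
    unfold mass
    rw [Finset.mul_sum]
    apply Finset.sum_congr rfl
    intro τ _
    by_cases h2 : ∀ i, ¬ YI F (τ i)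
    · simp only [if_pos h2]
      ring
    · simp only [if_neg h2]
      ring
  · simp only [if_neg h1, mul_zero, Finset.sum_const_zero]

theorem few_small_pr (ε : ℝ) (h : 0 < ε) : ∃ κ : ℕ, ∀ q : ℕ, 2 ≤ q → ∃ ε0 : ℝ, 0 < ε0 ∧
    ∃ N : ℕ, ∀ n : ℕ, N ≤ n →
    mass (fun τ : E' n → Tri n =>
      κ < Nat.card {f : E' n → ZMod q // f ∈ Kq (ZMod q) τ ∧ Small q ε0 f}) ≤ ε * Z n := by
  classical
  obtain ⟨C, N1, hC, hN1⟩ := isolated_sum
  obtain ⟨K, hK⟩ := exists_nat_gt (2 * C / ε)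
  have hKpos : (0 : ℝ) < K := lt_trans (by positivity) hK
  refine ⟨K.factorial ^ K, fun q hq => ?_⟩
  have hq0 : NeZero q := ⟨by omega⟩
  obtain ⟨ε0, hε0, hH⟩ := heavy_small q
  obtain ⟨N2, hN2⟩ := hH (ε / 2) (by positivity)
  refine ⟨ε0, hε0, N1 + N2 + K + 2, fun n hn => ?_⟩
  have e1 := hN2 n (by omega)
  have e2 := hN1 n (by omega)
  have hZ : 0 < Z n := Z_pos n (by omega)
  have e3 : mass (fun τ : E' n → Tri n => (K : ℝ) < sm7_S τ) ≤ C * Z n / K :=
    sm7_markov K hKpos (C * Z n) (by rw [sm7_expect]; exact e2)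
  have e4 : C * Z n / K ≤ ε / 2 * Z n := by
    rw [div_le_iff₀ hKpos]
    have h1 : 2 * C < K * ε := by
      rwa [div_lt_iff₀ h] at hK
    nlinarith
  have e5 : mass (fun τ : E' n → Tri n =>
      K.factorial ^ K < Nat.card {f : E' n → ZMod q // f ∈ Kq (ZMod q) τ ∧ Small q ε0 f}) ≤
      mass (fun τ : E' n → Tri n => ∃ (H : Finset (Fin n)) (lab : Fin n → Fin n → ZMod q)
        (F : Finset (E n)), HeavyCfg q ε0 H lab F ∧ ∀ i, ¬ YY H lab F (τ i)) +
      mass (fun τ : E' n → Tri n => (K : ℝ) < sm7_S τ) := by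
    refine (sm7_mass_mono ?_).trans (sm7_mass_or _ _)
    intro τ hw hτ
    by_contra hcon
    push Not at hcon
    obtain ⟨hc1, hc2⟩ := hcon
    have hdet : (M τ).det ≠ 0 := by
      intro h0
      apply hw
      simp [wt, h0]
    -- the union of the isolated sets
    set Fam : Finset (Finset (E n)) := Finset.univ.filter
      (fun F : Finset (E n) => (∀ v, (dg F v : ℝ) ≤ n / 20) ∧ ∀ i, ¬ YI F (τ i)) with hFam
    set Fs : Finset (E n) := Fam.biUnion id with hFs
    have hcard : (Fs.card : ℝ) ≤ sm7_S τ := by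
      have h1 : Fs.card ≤ ∑ F ∈ Fam, F.card := by
        rw [hFs]
        exact Finset.card_biUnion_le
      have h2 : ((∑ F ∈ Fam, F.card : ℕ) : ℝ) = sm7_S τ := by
        rw [hFam, Nat.cast_sum, Finset.sum_filter]
        unfold sm7_S
        apply Finset.sum_congr rfl
        intro F _
        by_cases h1 : ∀ v, (dg F v : ℝ) ≤ n / 20
        · by_cases h2 : ∀ i, ¬ YI F (τ i)
          · simp only [if_pos h1, if_pos h2, if_pos (And.intro h1 h2)]
          · have : ¬ ((∀ v, (dg F v : ℝ) ≤ n / 20) ∧ ∀ i, ¬ YI F (τ i)) := fun hh => h2 hh.2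
            simp only [if_pos h1, if_neg h2, if_neg this]
        · have : ¬ ((∀ v, (dg F v : ℝ) ≤ n / 20) ∧ ∀ i, ¬ YI F (τ i)) := fun hh => h1 hh.1
          simp only [if_neg h1, if_neg this]
      rw [← h2]
      exact_mod_cast h1
    have hFsK : Fs.card ≤ K := by
      have : (Fs.card : ℝ) ≤ K := hcard.trans hc2
      exact_mod_cast this
    have hfew := few_supported n q τ hdet Fs (by omega)
    have hle : Nat.card {f : E' n → ZMod q // f ∈ Kq (ZMod q) τ ∧ Small q ε0 f} ≤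
        Nat.card {f : E' n → ZMod q // f ∈ Kq (ZMod q) τ ∧ ∃ (g : Fin n → Fin n → ZMod q)
      (h : Fin n → ZMod q), (∀ a b, g a b = tl f a b + h b - h a) ∧
      (∀ a b, g a b ≠ 0 → inF Fs a b)} := by
      apply Nat.card_le_card_of_injective
        (fun f => ⟨f.1, f.2.1, by
          rcases gauge_cases n q (by omega) ε0 hε0 τ f.1 f.2.1 f.2.2 with hh | hh
          · obtain ⟨H, lab, F, hcfg, hav⟩ := hh
            obtain ⟨i, hi⟩ := hc1 H lab F hcfg
            exact absurd hi (hav i)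
          · obtain ⟨F, hF1, hF2, g, hg, hg1, hg2⟩ := hh
            refine ⟨g, hg, hg1, fun a b hab => ?_⟩
            obtain ⟨e, he, hee⟩ := hg2 a b hab
            refine ⟨e, ?_, hee⟩
            rw [hFs, Finset.mem_biUnion]
            refine ⟨F, ?_, he⟩
            rw [hFam, Finset.mem_filter]
            exact ⟨Finset.mem_univ _, hF1, hF2⟩⟩)
      intro f g hfg
      simpa [Subtype.ext_iff] using hfg
    have hpow : Fs.card.factorial ^ Fs.card ≤ K.factorial ^ K :=
      (Nat.pow_le_pow_left (Nat.factorial_le hFsK) _).trans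
        (Nat.pow_le_pow_right (Nat.factorial_pos K) hFsK)
    omega
  calc _ ≤ _ := e5
    _ ≤ ε / 2 * Z n + ε / 2 * Z n := add_le_add e1 (e3.trans e4)
    _ = ε * Z n := by ring

end Pool.Agent.HT
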